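import Mathlib
import Pool.Agent.Q106.FinConn

/-!
# MP_260dff_co, Q1: upper minus domination versus signed domination in cubic graphs

There is a connected cubic graph `G` on 16 vertices with `Γ⁻(G) > γ_s(G)`.
-/

set_option autoImplicit false

namespace Pool.Agent.Results.MP_260dff_co.MinusAboveSigned

variable {V : Type*} [Fintype V]

/-- `f(N[v])`, the sum of `f` over the closed neighbourhood of `v`. -/
def nsum (G : SimpleGraph V) [DecidableRel G.Adj] (f : V → ℤ) (v : V) : ℤ :=
  f v + ∑ u, if G.Adj v u then f u else 0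

/-- The weight `f(V)`. -/
def weight (f : V → ℤ) : ℤ := ∑ v, f v

/-- `f` is a signed dominating function of `G`. -/
def IsSigned (G : SimpleGraph V) [DecidableRel G.Adj] (f : V → ℤ) : Prop :=
  (∀ v, f v = -1 ∨ f v = 1) ∧ ∀ v, 1 ≤ nsum G f v

/-- `f` is a minus dominating function of `G`. -/
def IsMinus (G : SimpleGraph V) [DecidableRel G.Adj] (f : V → ℤ) : Prop :=
  (∀ v, f v = -1 ∨ f v = 0 ∨ f v = 1) ∧ ∀ v, 1 ≤ nsum G f v

/-- `f` is a minimal minus dominating function of `G`. -/
def IsMinimalMinus (G : SimpleGraph V) [DecidableRel G.Adj] (f : V → ℤ) : Prop :=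
  IsMinus G f ∧ ∀ g : V → ℤ, IsMinus G g → (∀ v, g v ≤ f v) → g = f

/-- The signed domination number `γ_s(G)`. -/
noncomputable def gammaS (G : SimpleGraph V) [DecidableRel G.Adj] : ℤ :=
  sInf {w | ∃ f : V → ℤ, IsSigned G f ∧ weight f = w}

/-- The upper minus domination number `Γ⁻(G)`. -/
noncomputable def upperMinus (G : SimpleGraph V) [DecidableRel G.Adj] : ℤ :=
  sSup {w | ∃ f : V → ℤ, IsMinimalMinus G f ∧ weight f = w}

theorem gammaS_le (G : SimpleGraph V) [DecidableRel G.Adj] (f : V → ℤ) (hf : IsSigned G f) :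
    gammaS G ≤ weight f := by
  apply csInf_le
  · refine ⟨-(Fintype.card V : ℤ), ?_⟩
    rintro w ⟨g, hg, rfl⟩
    unfold weight
    have : ∑ v : V, (-1 : ℤ) ≤ ∑ v, g v := Finset.sum_le_sum (fun v _ => by
      rcases hg.1 v with h | h <;> omega)
    simpa using this
  · exact ⟨f, hf, rfl⟩

theorem le_upperMinus (G : SimpleGraph V) [DecidableRel G.Adj] (f : V → ℤ)
    (hf : IsMinimalMinus G f) : weight f ≤ upperMinus G := by
  apply le_csSup
  · refine ⟨(Fintype.card V : ℤ), ?_⟩
    rintro w ⟨g, hg, rfl⟩
    unfold weight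
    have : ∑ v, g v ≤ ∑ v : V, (1 : ℤ) := Finset.sum_le_sum (fun v _ => by
      rcases hg.1.1 v with h | h | h <;> omega)
    simpa using this
  · exact ⟨f, hf, rfl⟩

theorem nsum_mono (G : SimpleGraph V) [DecidableRel G.Adj] (f g : V → ℤ) (h : ∀ v, g v ≤ f v)
    (u v : V) (huv : u = v ∨ G.Adj u v) (hv : g v < f v) : nsum G g u < nsum G f u := by
  classical
  unfold nsum
  rcases huv with rfl | huv
  · have h1 : ∑ w, (if G.Adj u w then g w else 0) ≤ ∑ w, (if G.Adj u w then f w else 0) :=
      Finset.sum_le_sum (fun w _ => by split_ifs; exacts [h w, le_refl _])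
    omega
  · have h1 : ∑ w, (if G.Adj u w then g w else 0) < ∑ w, (if G.Adj u w then f w else 0) := by
      refine Finset.sum_lt_sum (fun w _ => by split_ifs; exacts [h w, le_refl _])
        ⟨v, Finset.mem_univ _, ?_⟩
      rw [if_pos huv, if_pos huv]
      exact hv
    have h2 := h u
    omega

/-- The local criterion for minimality. -/
theorem isMinimalMinus_of_local (G : SimpleGraph V) [DecidableRel G.Adj] (f : V → ℤ)
    (hf : IsMinus G f)
    (hloc : ∀ v, f v = -1 ∨ ∃ u, (u = v ∨ G.Adj u v) ∧ nsum G f u = 1) :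
    IsMinimalMinus G f := by
  refine ⟨hf, fun g hg hle => ?_⟩
  by_contra hne
  obtain ⟨v, hv⟩ : ∃ v, g v ≠ f v := by
    by_contra hall
    push Not at hall
    exact hne (funext hall)
  have hlt : g v < f v := lt_of_le_of_ne (hle v) hv
  rcases hloc v with h | ⟨u, huv, hu⟩
  · rcases hg.1 v with h' | h' | h' <;> omega
  · have h1 := nsum_mono G f g hle u v huv hlt
    have h2 := hg.2 u
    omega

/-- The neighbours in the example. -/
def nb : Fin 16 → List (Fin 16) :=
  ![[1, 2, 3], [0, 4, 5], [0, 6, 7], [0, 6, 7], [1, 8, 9], [1, 9, 10], [2, 3, 11], [2, 3, 12],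
    [4, 13, 14], [4, 5, 14], [5, 14, 15], [6, 13, 15], [7, 13, 15], [8, 11, 12], [8, 9, 10],
    [10, 11, 12]]

/-- The example, a cubic graph on 16 vertices. -/
def graph : SimpleGraph (Fin 16) where
  Adj u v := v ∈ nb u
  symm := ⟨by decide +kernel⟩
  loopless := ⟨by decide +kernel⟩

instance : DecidableRel graph.Adj := fun u v => inferInstanceAs (Decidable (v ∈ nb u))

/-- A minimal minus dominating function of weight `9`. -/
def fM : Fin 16 → ℤ := ![1, 1, 0, -1, 1, 1, 1, 1, 1, 1, 0, 1, 1, 0, -1, 1]

/-- A signed dominating function of weight `8`. -/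
def fS : Fin 16 → ℤ := ![1, -1, 1, 1, 1, 1, 1, -1, 1, 1, 1, -1, 1, 1, -1, 1]

theorem regular : graph.IsRegularOfDegree 3 := by
  intro v
  revert v
  decide +kernel

theorem connected : graph.Connected :=
  Q106.FinConn.connected_of_lt_nbr graph (by decide +kernel)

/-- **Main result.** There is a (connected) cubic graph, with 16 vertices, whose upper minus
domination number is larger than its signed domination number. -/
theorem result : ∃ (G : SimpleGraph (Fin 16)) (_ : DecidableRel G.Adj),
    G.Connected ∧ G.IsRegularOfDegree 3 ∧ gammaS G < upperMinus G := by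
  refine ⟨graph, inferInstance, connected, regular, ?_⟩
  have h1 : IsSigned graph fS := by
    unfold IsSigned nsum
    decide +kernel
  have h2 : IsMinimalMinus graph fM := by
    apply isMinimalMinus_of_local
    · unfold IsMinus nsum
      decide +kernel
    · unfold nsum
      decide +kernel
  have h3 : weight fS = 8 := by decide +kernel
  have h4 : weight fM = 9 := by decide +kernel
  have h5 := gammaS_le graph fS h1
  have h6 := le_upperMinus graph fM h2
  omega

end Pool.Agent.Results.MP_260dff_co.MinusAboveSigned
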